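import Pool.Agent.H198R3.AxialFinal

/-!
# An indecomposable primitive axial algebra with disconnected non-annihilation graph

Let `x ≠ 0, 1` in a field `F`.  `B` has the basis `a_0, …, a_3`, `p_ij = a_i a_j` (`i < j`), `n`,
`m` with `a_k p_ij = x p_ij`, `a_k n = x n`, `p_ij² = x (2x - 1) p_ij`,
`p_ki p_kj = x² (p_ki + p_kj - p_ij)`, `p_01 p_23 = n`, `n² = m`, all other products of basis
vectors being zero.  The `a_i` are primitive axes for the Seress fusion law with
`x ⋆ x = {0, x}`.  In `A = B ⊕ B' ⊕ F w` with `m m' = w` the axes of `B` annihilate those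
of `B'`, but `A` is generated by the eight axes and `m m' ≠ 0` makes `A` indecomposable.
-/

namespace Pool.Agent.Results.MP_8db76d_al.Disconnected

open Pool.Agent.H198R3.Axial

universe u

/-- For every field `F` and every `x ≠ 0, 1` in `F` there is a Seress fusion law on `{1, 0, x}`
and a finite-dimensional primitive axial algebra `(A, X)` for it, with `X` finite, such that `A`
is indecomposable and its non-annihilation graph is not connected. -/
theorem result (F : Type u) [Field F] (x : F) (hx0 : x ≠ 0) (hx1 : x ≠ 1) :
    ∃ (L : FusionLaw F) (A : Type u) (_ : NonUnitalNonAssocCommRing A) (_ : Module F A)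
      (_ : IsScalarTower F A A) (_ : SMulCommClass F A A) (X : Set A),
      L.carrier = {1, 0, x} ∧ L.IsSeress ∧ Module.Finite F A ∧ X.Finite ∧
        IsPrimitiveAxial L X ∧ Indecomposable F A ∧ ¬ (graph X).Connected := by
  refine ⟨law x, AA F x, inferInstance, inferInstance, inferInstance, inferInstance, XX x,
    rfl, law_seress x hx0 hx1, finite_dim x, Set.finite_range _, ⟨?_, ?_⟩,
    indecomposable x hx1, not_connected x⟩
  · rintro _ ⟨p, rfl⟩
    exact ⟨isAxis x hx0 hx1 p, eig_one x hx1 p⟩
  · intro N hX hN
    exact generate x N hX hN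

end Pool.Agent.Results.MP_8db76d_al.Disconnected
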